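import Pool.Agent.Lib.MP_7682a8_an.KB.Iface

/-!
# Board kb, row BRN: existence of the branch
-/

open Metric Set

namespace Pool.Agent.Lib.MP_7682a8_an.KB.H96

theorem brn : BrnStmt := by
  intro h g δ hO
  have hδ : (δ : ℂ) ≠ 0 := by
    exact_mod_cast hO.pos.ne'
  have hsc : IsSimplyConnected (ball (0 : ℂ) 1) := by
    have hc : ContractibleSpace (ball (0 : ℂ) 1) :=
      Convex.contractibleSpace (convex_ball (0 : ℂ) 1) ⟨0, by simp⟩
    change SimplyConnectedSpace (ball (0 : ℂ) 1)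
    infer_instance
  set F : ℂ → ℂ := fun z => 1 + (h z + starRingEnd ℂ (g z)) / δ with hF
  have hFc : ContinuousOn F (ball (0 : ℂ) 1) := by
    apply ContinuousOn.add continuousOn_const
    apply ContinuousOn.div_const
    apply ContinuousOn.add hO.dh.continuousOn
    exact Complex.continuous_conj.comp_continuousOn hO.dg.continuousOn
  have hF0 : (0 : ℂ) ∉ F '' ball (0 : ℂ) 1 := by
    rintro ⟨z, hz, h1⟩
    apply hO.om z hz
    have h2 : (1 + (h z + starRingEnd ℂ (g z)) / δ) * δ = 0 := by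
      have : 1 + (h z + starRingEnd ℂ (g z)) / δ = 0 := h1
      rw [this, zero_mul]
    rw [add_mul, one_mul, div_mul_cancel₀ _ hδ] at h2
    exact eq_neg_of_add_eq_zero_right h2
  obtain ⟨f, hfc, hf⟩ := Complex.exists_continuousOn_eqOn_exp_comp hsc isOpen_ball hFc hF0
  have hf' : ∀ z ∈ ball (0 : ℂ) 1, Complex.exp (f z) = F z := fun z hz => hf hz
  have h0m : (0 : ℂ) ∈ ball (0 : ℂ) 1 := by simp
  have hFz : F 0 = 1 := by
    rw [hF]
    simp [hO.h0, hO.g0]
  refine ⟨fun z => (f z - f 0) / 2, ?_, ?_, ?_⟩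
  · exact (hfc.sub continuousOn_const).div_const 2
  · simp
  · intro z hz
    have h1 : 2 * ((f z - f 0) / 2) = f z - f 0 := by ring
    rw [h1, Complex.exp_sub, hf' z hz, hf' 0 h0m, hFz, div_one, hF]
    field_simp
    ring

end Pool.Agent.Lib.MP_7682a8_an.KB.H96
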